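import Mathlib

set_option autoImplicit false

namespace Pool.Agent.Results.MP_94066b_nt.TomsDecomposition

/-- `T(a,b,c)`: the set of integers `x` with `a x mod b ≤ x - c`. -/
def T (a b c : ℕ) : Set ℤ := {x | ((a : ℤ) * x) % b ≤ x - c}

/-- The contracted modular numerical semigroup `T(a,b,c) ∪ {0}`, as a subset of `ℕ` (all elements
of `T(a,b,c)` are `≥ c ≥ 0`). -/
def CM (a b c : ℕ) : Set ℕ := {x | (x : ℤ) ∈ T a b c} ∪ {0}

/-- `S` admits a Toms decomposition. -/
def HasToms (S : Set ℕ) : Prop :=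
  ∃ (L n : ℕ) (q m : Fin n → ℕ), 0 < L ∧ 0 < n ∧
    (∀ i, 0 < q i ∧ 0 < m i ∧ Nat.gcd (q i) (m i) = 1 ∧ Nat.gcd L (m i) = 1 ∧
      Nat.gcd L (q i) = 1) ∧
    S = {x | ∀ i, L * x ∈ AddSubmonoid.closure ({q i, m i} : Set ℕ)}

/-- The arithmetic core: a pair `(q,m)` separating `h`. -/
theorem key (h k : ℕ) (hk : k < h) : ∃ L0 : ℕ, ∀ L : ℕ, L.Prime → L0 ≤ L → ∃ q m : ℕ,
    0 < q ∧ 0 < m ∧ Nat.gcd q m = 1 ∧ Nat.gcd L m = 1 ∧ Nat.gcd L q = 1 ∧
    (∀ x : ℕ, (∃ j : ℤ, (k : ℤ) * x < h * j ∧ (h : ℤ) * j < (k + 1) * x) →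
      L * x ∈ AddSubmonoid.closure ({q, m} : Set ℕ)) ∧
    L * h ∉ AddSubmonoid.closure ({q, m} : Set ℕ) := by
  obtain ⟨e, rfl⟩ : ∃ e, h = k + e := ⟨h - k, by omega⟩
  have he : 1 ≤ e := by omega
  refine ⟨(4 * (k + e) * e + 1) ^ 3 + 1, ?_⟩
  intro L hLp hL0
  set h : ℕ := k + e with hh
  have h1 : (1 : ℤ) ≤ h := by exact_mod_cast (by omega : 1 ≤ h)
  have he1 : (1 : ℤ) ≤ e := by exact_mod_cast he
  have hk0 : (0 : ℤ) ≤ k := by positivity
  have hhZ : (h : ℤ) = k + e := by rw [hh]; push_cast; ring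
  obtain ⟨q, hq⟩ : ∃ q : ℤ, q = 4 * h * e + 1 := ⟨_, rfl⟩
  obtain ⟨s, hs⟩ : ∃ s : ℤ, s = 4 * k * e + 1 := ⟨_, rfl⟩
  obtain ⟨D, hD⟩ : ∃ D : ℤ, D = q - e := ⟨_, rfl⟩
  obtain ⟨W, hW⟩ : ∃ W : ℤ, W = 4 * h * D - q := ⟨_, rfl⟩
  have hhe : (h : ℤ) ≤ h * e := le_mul_of_one_le_right (by linarith) he1
  have hee : (e : ℤ) ≤ h * e := le_mul_of_one_le_left (by linarith) h1
  have hq4 : 4 * (h : ℤ) + 1 ≤ q := by rw [hq]; linarith
  have hqe : 4 * (e : ℤ) + 1 ≤ q := by rw [hq]; linarith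
  have hD1 : 1 ≤ D := by rw [hD]; linarith
  have hDq : D ≤ q := by rw [hD]; linarith
  have hW' : W = (4 * h - 2) * q + 1 := by
    rw [hW, hD, hq]; ring
  have hW1 : 1 ≤ W := by
    have : 0 ≤ (4 * (h : ℤ) - 2) * q := mul_nonneg (by linarith) (by linarith)
    linarith
  have hWq : W ≤ q ^ 2 := by
    have e1 : (4 * (h : ℤ) - 2) * q ≤ (q - 3) * q :=
      mul_le_mul_of_nonneg_right (by linarith) (by linarith)
    have e2 : q ^ 2 = (q - 3) * q + 3 * q := by ring
    linarith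
  have hLZ : q ^ 3 + 1 ≤ (L : ℤ) := by
    have : ((4 * (k + e) * e + 1) ^ 3 + 1 : ℕ) ≤ L := hL0
    have h2 : (((4 * (k + e) * e + 1) ^ 3 + 1 : ℕ) : ℤ) ≤ L := by exact_mod_cast this
    push_cast at h2
    rw [hq, hhZ]
    linarith
  have hq0 : 0 < q := by linarith
  have hqq : q ≤ q ^ 3 := le_self_pow₀ (by linarith) (by norm_num)
  have hLq : q < L := by linarith
  have hDW : D * W ≤ h * L := by
    have e1 : D * W ≤ q * q ^ 2 := by
      apply mul_le_mul hDq hWq (by linarith) (by linarith)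
    have e2 : (L : ℤ) ≤ h * L := le_mul_of_one_le_left (by linarith) h1
    have e3 : q * q ^ 2 = q ^ 3 := by ring
    linarith
  -- `h s - k q = e`
  have hrel : (h : ℤ) * s = k * q + e := by rw [hs, hq, hhZ]; ring
  -- the number `m`
  obtain ⟨m0, hm0⟩ : ∃ m0 : ℤ, m0 = h * L / D + 1 := ⟨_, rfl⟩
  have hm0a : h * L < D * m0 := by
    rw [hm0]
    have := Int.lt_ediv_add_one_mul_self (h * L : ℤ) (by linarith : 0 < D)
    linarith
  have hm0b : D * m0 ≤ h * L + D := by
    rw [hm0]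
    have := Int.ediv_mul_le (h * L : ℤ) (by linarith : D ≠ 0)
    linarith
  obtain ⟨u, hu⟩ : ∃ u : ℤ, u = 4 * h ^ 2 * L := ⟨_, rfl⟩
  have huq : (L : ℤ) + s * u = q * ((1 + 4 * h * k) * L) := by
    rw [hu]
    have : (1 : ℤ) + 4 * h ^ 2 * s = q * (1 + 4 * h * k) := by
      have : 4 * (h : ℤ) ^ 2 * s = 4 * h * (k * q + e) := by rw [← hrel]; ring
      rw [this]
      have : (1 : ℤ) + 4 * h * e = q := by rw [hq]; ring
      linear_combination this
    linear_combination (L : ℤ) * this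
  obtain ⟨m, hm⟩ : ∃ m : ℤ, m = m0 + (u - m0) % q := ⟨_, rfl⟩
  have hmod0 := Int.emod_nonneg (u - m0) (by linarith : q ≠ 0)
  have hmod1 := Int.emod_lt_of_pos (u - m0) hq0
  have hmlo : h * L < D * m := by
    have e1 : 0 ≤ D * ((u - m0) % q) := mul_nonneg (by linarith) hmod0
    have e2 : D * m = D * m0 + D * ((u - m0) % q) := by rw [hm]; ring
    linarith
  have hmhi : D * m ≤ h * L + D * q := by
    have e1 : D * ((u - m0) % q) ≤ D * (q - 1) :=
      mul_le_mul_of_nonneg_left (by linarith) (by linarith)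
    have e2 : D * m = D * m0 + D * ((u - m0) % q) := by rw [hm]; ring
    linarith
  have hmq : ∃ r : ℤ, (L : ℤ) + s * m = q * r := by
    have h2 : q ∣ (u - m0) - (u - m0) % q := Int.dvd_self_sub_emod
    obtain ⟨w, hw⟩ := h2
    refine ⟨(1 + 4 * h * k) * L - s * w, ?_⟩
    have : m = u - q * w := by rw [hm]; linarith
    rw [this]
    linear_combination huq
  obtain ⟨r, hr⟩ := hmq
  have hL0' : (0 : ℤ) < L := by linarith
  have hm1 : 0 < m := by
    by_contra hcon
    push Not at hcon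
    have e1 : D * m ≤ 0 := mul_nonpos_of_nonneg_of_nonpos (by linarith) hcon
    have e2 : 0 ≤ (h : ℤ) * L := by positivity
    linarith
  have hWm : W * m ≤ 4 * h ^ 2 * L := by
    have e1 : D * (W * m) ≤ D * (4 * h ^ 2 * L) := by
      calc D * (W * m) = W * (D * m) := by ring
        _ ≤ W * (h * L + D * q) := mul_le_mul_of_nonneg_left hmhi (by linarith)
        _ = W * (h * L) + q * (D * W) := by ring
        _ ≤ W * (h * L) + q * (h * L) := by
            have := mul_le_mul_of_nonneg_left hDW hq0.le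
            linarith
        _ = D * (4 * h ^ 2 * L) := by rw [hW]; ring
    exact le_of_mul_le_mul_left e1 (by linarith)
  have hmL : m < L := by
    have e1 : 4 * (h : ℤ) ^ 2 < W := by
      have e3 : (4 * (h : ℤ) - 2) * (4 * h + 1) ≤ (4 * h - 2) * q :=
        mul_le_mul_of_nonneg_left hq4 (by linarith)
      have e4 : (h : ℤ) ≤ h ^ 2 := le_self_pow₀ h1 (by norm_num)
      linarith
    by_contra hcon
    push Not at hcon
    have e2 : W * (L : ℤ) ≤ W * m := mul_le_mul_of_nonneg_left hcon (by linarith)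
    have e3 : 4 * (h : ℤ) ^ 2 * L < W * L := mul_lt_mul_of_pos_right e1 hL0'
    linarith
  -- `h r < (k+1) m` and `4 h² r ≥ (4h(k+1) - 1) m`
  have hr1 : (h : ℤ) * r < (k + 1) * m := by
    have e1 : q * (h * r) < q * ((k + 1) * m) := by
      have : q * ((h : ℤ) * r) = h * L + (k * q + e) * m := by
        rw [← hrel]; linear_combination (-(h : ℤ)) * hr
      rw [this]
      have : q * ((k + 1) * m) = (k * q + e) * m + D * m := by rw [hD]; ring
      rw [this]; linarith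
    exact lt_of_mul_lt_mul_left e1 hq0.le
  have hr2 : (4 * h * (k + 1) - 1) * m ≤ 4 * (h : ℤ) ^ 2 * r := by
    have e1 : q * ((4 * h * (k + 1) - 1) * m) ≤ q * (4 * (h : ℤ) ^ 2 * r) := by
      have e2 : q * (4 * (h : ℤ) ^ 2 * r) = 4 * h ^ 2 * L + 4 * h * (k * q + e) * m := by
        rw [← hrel]; linear_combination (-(4 * (h : ℤ) ^ 2)) * hr
      have e3 : q * ((4 * h * (k + 1) - 1) * m) = 4 * h * (k * q + e) * m + W * m := by
        rw [hW, hD]; ring
      rw [e2, e3]; linarith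
    exact le_of_mul_le_mul_left e1 hq0
  have hqm : q * m ≤ 2 * h * L := by
    have e1 : 2 * (h : ℤ) * q ≤ W := by
      have e3 : 0 ≤ (2 * (h : ℤ) - 2) * q := mul_nonneg (by linarith) hq0.le
      linarith
    have e2 : 2 * (h : ℤ) * (q * m) ≤ 2 * h * (2 * h * L) := by
      calc 2 * (h : ℤ) * (q * m) = (2 * h * q) * m := by ring
        _ ≤ W * m := mul_le_mul_of_nonneg_right e1 hm1.le
        _ ≤ 4 * h ^ 2 * L := hWm
        _ = 2 * h * (2 * h * L) := by ring
    exact le_of_mul_le_mul_left e2 (by linarith)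
  -- pass to natural numbers
  obtain ⟨q', rfl⟩ : ∃ q' : ℕ, q = q' := ⟨q.toNat, by omega⟩
  obtain ⟨m', rfl⟩ : ∃ m' : ℕ, m = m' := ⟨m.toNat, by omega⟩
  have hq'0 : 0 < q' := by exact_mod_cast hq0
  have hm'0 : 0 < m' := by exact_mod_cast hm1
  have hq'L : q' < L := by exact_mod_cast hLq
  have hm'L : m' < L := by exact_mod_cast hmL
  have hLm : Nat.Coprime L m' := (Nat.Prime.coprime_iff_not_dvd hLp).mpr
    (fun hd => absurd (Nat.le_of_dvd hm'0 hd) (by omega))
  have hLq' : Nat.Coprime L q' := (Nat.Prime.coprime_iff_not_dvd hLp).mpr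
    (fun hd => absurd (Nat.le_of_dvd hq'0 hd) (by omega))
  have hqm' : Nat.Coprime q' m' := by
    rw [Nat.coprime_iff_gcd_eq_one]
    have h2 : (Nat.gcd q' m' : ℤ) ∣ L := by
      have h3 : (Nat.gcd q' m' : ℤ) ∣ q' := by exact_mod_cast Nat.gcd_dvd_left _ _
      have h4 : (Nat.gcd q' m' : ℤ) ∣ m' := by exact_mod_cast Nat.gcd_dvd_right _ _
      have h5 : (L : ℤ) = q' * r - s * m' := by linarith
      rw [h5]
      exact dvd_sub (h3.mul_right _) (h4.mul_left _)
    have h6 : Nat.gcd q' m' ∣ L := by exact_mod_cast h2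
    rcases (Nat.dvd_prime hLp).mp h6 with h7 | h7
    · exact h7
    · exfalso
      have h8 : Nat.gcd q' m' ≤ q' := Nat.le_of_dvd hq'0 (Nat.gcd_dvd_left _ _)
      omega
  refine ⟨q', m', hq'0, hm'0, hqm', hLm, hLq', ?_, ?_⟩
  · -- membership
    rintro x ⟨j, hj1, hj2⟩
    have hx0 : (0 : ℤ) ≤ x := by positivity
    -- find `j'` with `x s ≤ q j'` and `m j' ≤ x r`
    obtain ⟨j', hja, hjb⟩ : ∃ j' : ℤ, x * s ≤ q' * j' ∧ m' * j' ≤ x * r := by
      by_cases hx : (x : ℤ) ≤ 2 * h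
      · refine ⟨j, ?_, ?_⟩
        · have e1 : (h : ℤ) * (x * s) ≤ h * (q' * j) := by
            have e2 : (h : ℤ) * (x * s) = x * (k * q' + e) := by rw [← hrel]; ring
            have e3 : (k : ℤ) * x + 1 ≤ h * j := hj1
            have e4 : q' * ((k : ℤ) * x + 1) ≤ q' * (h * j) :=
              mul_le_mul_of_nonneg_left e3 hq0.le
            have e5 : (x : ℤ) * e ≤ q' := by
              rw [hq]
              have : (x : ℤ) * e ≤ 2 * h * e := mul_le_mul_of_nonneg_right hx (by linarith)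
              linarith
            rw [e2]
            linarith
          exact le_of_mul_le_mul_left e1 (by linarith)
        · have e1 : 4 * (h : ℤ) ^ 2 * (m' * j) ≤ 4 * h ^ 2 * (x * r) := by
            have e3 : (h : ℤ) * j ≤ (k + 1) * x - 1 := by linarith
            have e4 : 4 * h * m' * ((h : ℤ) * j) ≤ 4 * h * m' * ((k + 1) * x - 1) :=
              mul_le_mul_of_nonneg_left e3 (by positivity)
            have e5 : (x : ℤ) * ((4 * h * (k + 1) - 1) * m') ≤ x * (4 * (h : ℤ) ^ 2 * r) :=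
              mul_le_mul_of_nonneg_left hr2 hx0
            have e6 : (x : ℤ) * m' ≤ 4 * h * m' :=
              mul_le_mul_of_nonneg_right (by linarith) hm1.le
            linarith
          exact le_of_mul_le_mul_left e1 (by positivity)
      · push Not at hx
        obtain ⟨j', hj'⟩ : ∃ j' : ℤ, j' = -(-(x * s) / q') := ⟨_, rfl⟩
        have e1 := Int.ediv_mul_le (-(x * s) : ℤ) (by linarith : (q' : ℤ) ≠ 0)
        have e2 := Int.lt_ediv_add_one_mul_self (-(x * s) : ℤ) hq0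
        refine ⟨j', by rw [hj']; linarith, ?_⟩
        have e3 : (q' : ℤ) * j' ≤ x * s + q' := by rw [hj']; linarith
        have e4 : (q' : ℤ) * (m' * j') ≤ q' * (x * r) := by
          calc (q' : ℤ) * (m' * j') = m' * (q' * j') := by ring
            _ ≤ m' * (x * s + q') := mul_le_mul_of_nonneg_left e3 hm1.le
            _ = x * (s * m') + q' * m' := by ring
            _ ≤ x * (s * m') + x * L := by
                have : 2 * (h : ℤ) * L ≤ x * L := mul_le_mul_of_nonneg_right hx.le hL0'.le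
                linarith
            _ = q' * (x * r) := by linear_combination (x : ℤ) * hr
        exact le_of_mul_le_mul_left e4 hq0
    rw [AddSubmonoid.mem_closure_pair]
    refine ⟨(x * r - m' * j').toNat, (q' * j' - x * s).toNat, ?_⟩
    have e1 : (((x * r - m' * j').toNat • q' + (q' * j' - x * s).toNat • m' : ℕ) : ℤ) =
        ((L * x : ℕ) : ℤ) := by
      rw [smul_eq_mul, smul_eq_mul]
      push_cast
      rw [Int.toNat_of_nonneg (by linarith), Int.toNat_of_nonneg (by linarith)]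
      linear_combination (-(x : ℤ)) * hr
    exact_mod_cast e1
  · -- non-membership
    intro hmem
    rw [AddSubmonoid.mem_closure_pair] at hmem
    obtain ⟨i2, i1, hi⟩ := hmem
    rw [smul_eq_mul, smul_eq_mul] at hi
    have hiZ : (i2 : ℤ) * q' + i1 * m' = L * h := by exact_mod_cast hi
    -- `q ∣ i1 + s h`
    have hdiv : (q' : ℤ) ∣ m' * (i1 + s * h) := by
      refine ⟨h * r - i2, ?_⟩
      linear_combination hiZ + (h : ℤ) * hr
    have hcop : IsCoprime (q' : ℤ) (m' : ℤ) := Nat.isCoprime_iff_coprime.mpr hqm'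
    obtain ⟨j, hj⟩ := hcop.dvd_of_dvd_mul_left hdiv
    have hi1 : (0 : ℤ) ≤ i1 := by positivity
    have hi2 : (0 : ℤ) ≤ i2 := by positivity
    have hkj : (k : ℤ) < j := by
      have : (q' : ℤ) * k < q' * j := by linarith
      exact lt_of_mul_lt_mul_left this hq0.le
    have hjk : j < (k : ℤ) + 1 := by
      have e1 : (i2 : ℤ) = h * r - m' * j := by
        have : (q' : ℤ) * i2 = q' * (h * r - m' * j) := by
          linear_combination hiZ + (h : ℤ) * hr - m' * hj
        exact mul_left_cancel₀ (by linarith : (q' : ℤ) ≠ 0) this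
      have e2 : (m' : ℤ) * j < m' * (k + 1) := by linarith
      exact lt_of_mul_lt_mul_left e2 hm1.le
    linarith

theorem claimA {a b c h : ℕ} (hb : 0 < b) (hh : 0 < h) (hgap : (h : ℤ) ∉ T a b c) (x : ℕ)
    (hx : (x : ℤ) ∈ T a b c) (hx0 : 0 < x) :
    ∃ j : ℤ, ((a * h / b : ℕ) : ℤ) * x < h * j ∧ (h : ℤ) * j < ((a * h / b : ℕ) + 1) * x := by
  have hbZ : (0 : ℤ) < b := by exact_mod_cast hb
  have hhZ : (0 : ℤ) < h := by exact_mod_cast hh
  have hxZ : (0 : ℤ) < x := by exact_mod_cast hx0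
  obtain ⟨k, hk⟩ : ∃ k : ℤ, k = ((a * h / b : ℕ) : ℤ) := ⟨_, rfl⟩
  have hk' : k = (a : ℤ) * h / b := by rw [hk]; push_cast; rfl
  rw [← hk]
  have k1 : (a : ℤ) * h % b = a * h - b * k := by
    rw [hk']; exact eq_sub_of_add_eq (Int.emod_add_mul_ediv _ _)
  have k2 : (a : ℤ) * h < b * (k + 1) := by
    have := Int.emod_lt_of_pos ((a : ℤ) * h) hbZ
    linarith
  have k3 : (h : ℤ) - c < a * h - b * k := by
    by_contra hcon
    push Not at hcon
    apply hgap
    show (a : ℤ) * h % b ≤ h - c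
    rw [k1]; exact hcon
  have hk0 : 0 ≤ k := by rw [hk]; positivity
  rcases lt_trichotomy (x : ℤ) h with hlt | heq | hgt
  · obtain ⟨l, hl⟩ : ∃ l : ℤ, l = (a : ℤ) * x / b := ⟨_, rfl⟩
    have l1 : (a : ℤ) * x % b = a * x - b * l := by
      rw [hl]; exact eq_sub_of_add_eq (Int.emod_add_mul_ediv _ _)
    have l2 : (b : ℤ) * l ≤ a * x := by
      have := Int.emod_nonneg ((a : ℤ) * x) hbZ.ne'
      linarith
    have l3 : (a : ℤ) * x - b * l ≤ x - c := by
      have : (a : ℤ) * x % b ≤ x - c := hx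
      rw [l1] at this; exact this
    refine ⟨l, ?_, ?_⟩
    · have e1 : (b : ℤ) * (k * x) < b * (h * l) := by
        have e2 : (b * k) * x < ((a : ℤ) * h - h + c) * x :=
          mul_lt_mul_of_pos_right (by linarith) hxZ
        have e3 : h * ((a : ℤ) * x - x + c) ≤ h * (b * l) :=
          mul_le_mul_of_nonneg_left (by linarith) hhZ.le
        have e4 : (c : ℤ) * x ≤ c * h := mul_le_mul_of_nonneg_left hlt.le (by positivity)
        linarith
      exact lt_of_mul_lt_mul_left e1 hbZ.le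
    · have e1 : (b : ℤ) * (h * l) < b * ((k + 1) * x) := by
        have e2 : (h : ℤ) * (b * l) ≤ h * (a * x) := mul_le_mul_of_nonneg_left l2 hhZ.le
        have e3 : ((a : ℤ) * h) * x < (b * (k + 1)) * x := mul_lt_mul_of_pos_right k2 hxZ
        linarith
      exact lt_of_mul_lt_mul_left e1 hbZ.le
  · exfalso
    apply hgap
    rw [← heq]; exact hx
  · have e1 := Int.lt_ediv_add_one_mul_self (k * x) hhZ
    have e2 := Int.ediv_mul_le (k * x) hhZ.ne'
    refine ⟨k * x / h + 1, by linarith, ?_⟩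
    linarith

theorem T_mod (a b c : ℕ) : T a b c = T (a % b) b c := by
  ext x
  show (a : ℤ) * x % b ≤ x - c ↔ ((a % b : ℕ) : ℤ) * x % b ≤ x - c
  have : ((a % b : ℕ) : ℤ) * x % b = (a : ℤ) * x % b := by
    push_cast
    rw [Int.mul_emod, Int.emod_emod_of_dvd _ (dvd_refl _), ← Int.mul_emod]
  rw [this]

theorem gap_bound {a b c : ℕ} (hb : 0 < b) {x : ℕ} (hx : b + c ≤ x) : x ∈ CM a b c := by
  left
  show (a : ℤ) * x % b ≤ x - c
  have hbZ : (0 : ℤ) < b := by exact_mod_cast hb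
  have := Int.emod_lt_of_pos ((a : ℤ) * x) hbZ
  have : ((b + c : ℕ) : ℤ) ≤ x := by exact_mod_cast hx
  push_cast at this
  linarith

theorem sep (a b c : ℕ) (hb : 0 < b) (h : ℕ) : ∃ L0 : ℕ, ∀ L : ℕ, L.Prime → L0 ≤ L →
    ∃ q m : ℕ, (0 < q ∧ 0 < m ∧ Nat.gcd q m = 1 ∧ Nat.gcd L m = 1 ∧ Nat.gcd L q = 1) ∧
    (∀ x ∈ CM a b c, L * x ∈ AddSubmonoid.closure ({q, m} : Set ℕ)) ∧
    (h ∉ CM a b c → L * h ∉ AddSubmonoid.closure ({q, m} : Set ℕ)) := by
  by_cases hgap : h ∈ CM a b c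
  · refine ⟨0, fun L _ _ => ⟨1, 1, by simp, ?_, fun h' => absurd hgap h'⟩⟩
    intro x _
    rw [AddSubmonoid.mem_closure_pair]
    exact ⟨L * x, 0, by simp⟩
  · have hh0 : h ≠ 0 := fun h0 => hgap (Or.inr h0)
    have hT : (h : ℤ) ∉ T a b c := fun h' => hgap (Or.inl h')
    rw [T_mod] at hT
    have hab : a % b < b := Nat.mod_lt _ hb
    have hk : (a % b) * h / b < h := by
      rw [Nat.div_lt_iff_lt_mul hb, mul_comm h b]
      exact Nat.mul_lt_mul_of_pos_right hab (Nat.pos_of_ne_zero hh0)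
    obtain ⟨L0, hL0⟩ := key h _ hk
    refine ⟨L0, fun L hL hLL => ?_⟩
    obtain ⟨q, m, h1, h2, h3, h4, h5, h6, h7⟩ := hL0 L hL hLL
    refine ⟨q, m, ⟨h1, h2, h3, h4, h5⟩, ?_, fun _ => h7⟩
    rintro x (hx | hx)
    · rcases Nat.eq_zero_or_pos x with rfl | hx0
      · rw [mul_zero]; exact zero_mem _
      · have hx' : (x : ℤ) ∈ T a b c := hx
        rw [T_mod] at hx'
        exact h6 x (claimA hb (Nat.pos_of_ne_zero hh0) hT x hx' hx0)
    · have hx' : x = 0 := hx
      rw [hx', mul_zero]; exact zero_mem _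

/-- Every contracted modular numerical semigroup admits a Toms decomposition. -/
theorem result (a b c : ℕ) (hb : b ≠ 0) : HasToms (CM a b c) := by
  have hb' : 0 < b := Nat.pos_of_ne_zero hb
  choose L0 hL0 using sep a b c hb'
  obtain ⟨L, hLge, hLp⟩ := Nat.exists_infinite_primes ((Finset.range (b + c + 1)).sup L0)
  have hle : ∀ i : Fin (b + c + 1), L0 i ≤ L := fun i =>
    (Finset.le_sup (f := L0) (Finset.mem_range.mpr i.2)).trans hLge
  choose q m hqm using fun i : Fin (b + c + 1) => hL0 i L hLp (hle i)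
  refine ⟨L, b + c + 1, q, m, hLp.pos, by omega, fun i => (hqm i).1, ?_⟩
  apply Set.Subset.antisymm
  · intro x hx i
    exact (hqm i).2.1 x hx
  · intro x hx
    by_contra hcon
    have hlt : x < b + c := by
      by_contra h1
      exact hcon (gap_bound hb' (by omega))
    exact (hqm ⟨x, by omega⟩).2.2 hcon (hx ⟨x, by omega⟩)

end Pool.Agent.Results.MP_94066b_nt.TomsDecomposition
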